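import Mathlib
import Pool.Agent.G9.Stmts
import Pool.Agent.Helper4_GNI.CNV

/-!
# Squad GNI, row NRB: norm bound, bilinear case
-/

set_option autoImplicit false

namespace Pool.Agent.G9.H16

open Finset Pool.Agent.G9

/-- The cubic `a D ^ 3 + b D` has at most 3 roots. -/
theorem roots_le {F : Type} [Field F] [Fintype F] [DecidableEq F] (a b : F) (h : a ≠ 0 ∨ b ≠ 0) :
    ({D : F | a * D ^ 3 + b * D = 0} : Finset F).card ≤ 3 := by
  set P : Polynomial F := Polynomial.C a * Polynomial.X ^ 3 + Polynomial.C b * Polynomial.X with hP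
  have hP0 : P ≠ 0 := by
    intro h0
    have h3 : P.coeff 3 = a := by
      rw [hP, Polynomial.coeff_add, Polynomial.coeff_C_mul, Polynomial.coeff_C_mul,
        Polynomial.coeff_X_pow, Polynomial.coeff_X]
      norm_num
    have h1 : P.coeff 1 = b := by
      rw [hP, Polynomial.coeff_add, Polynomial.coeff_C_mul, Polynomial.coeff_C_mul,
        Polynomial.coeff_X_pow, Polynomial.coeff_X]
      norm_num
    rw [h0, Polynomial.coeff_zero] at h3 h1
    rcases h with h | h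
    · exact h h3.symm
    · exact h h1.symm
  have hdeg : P.natDegree ≤ 3 := by
    rw [hP]
    refine Polynomial.natDegree_add_le_of_degree_le ?_ ?_
    · exact Polynomial.natDegree_C_mul_X_pow_le a 3
    · refine le_trans (Polynomial.natDegree_C_mul_le b Polynomial.X) ?_
      rw [Polynomial.natDegree_X]
      norm_num
  have hsub : ({D : F | a * D ^ 3 + b * D = 0} : Finset F) ⊆ P.roots.toFinset := by
    intro D hD
    rw [mem_filter] at hD
    rw [Multiset.mem_toFinset, Polynomial.mem_roots hP0, Polynomial.IsRoot.def, hP]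
    simpa using hD.2
  exact (card_le_card hsub).trans ((Multiset.toFinset_card_le _).trans
    ((Polynomial.card_roots' P).trans hdeg))

/-- **Row NRB.** -/
theorem nrb : NrbStmt := by
  intro F _ _ _ _ σ ψ hσ hψ hinv β γ hne f g
  have hq0 : (0 : ℝ) ≤ Fintype.card F := Nat.cast_nonneg _
  set A : F → F := fun x => β * σ x + σ.symm (γ * x) with hA
  have hph : ∀ x y : F, ψ (β * (σ x * y) + γ * (x * σ y)) = ψ (y * A x) := by
    intro x y
    have h1 : γ * (x * σ y) = σ (σ.symm (γ * x) * y) := by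
      rw [map_mul, RingEquiv.apply_symm_apply]
      ring
    rw [AddChar.map_add_eq_mul, h1, hinv, ← AddChar.map_add_eq_mul, hA]
    congr 1
    ring
  have hfib : ∀ s : F, ({x : F | A x = s} : Finset F).card ≤ 3 := by
    intro s
    rcases (({x : F | A x = s} : Finset F)).eq_empty_or_nonempty with h | ⟨x0, hx0⟩
    · rw [h, card_empty]
      norm_num
    · rw [mem_filter] at hx0
      refine le_trans ?_ (roots_le (σ β) γ ?_)
      · refine card_le_card_of_injOn (fun x => x - x0) ?_ ?_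
        · intro x hx
          rw [mem_coe, mem_filter] at hx
          rw [mem_coe, mem_filter]
          refine ⟨mem_univ _, ?_⟩
          have h1 : A (x - x0) = 0 := by
            have h2 : A (x - x0) = A x - A x0 := by
              rw [hA]
              simp only [map_sub, mul_sub]
              ring
            rw [h2, hx.2, hx0.2, sub_self]
          have h3 : σ (A (x - x0)) = 0 := by rw [h1, map_zero]
          rw [hA] at h3
          simp only [map_add, map_mul, RingEquiv.apply_symm_apply] at h3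
          rw [hσ] at h3
          exact h3
        · intro x _ y _ hxy
          exact sub_left_injective hxy
      · rcases hne with h | h
        · exact Or.inl (by simpa using h)
        · exact Or.inr h
  set Fs : F → ℂ := fun s => ∑ x with A x = s, f x with hFs
  set h : F → ℂ := fun y => ∑ s, ψ (y * s) * Fs s with hh
  have hh1 : ∀ y, h y = ∑ x, ψ (y * A x) * f x := by
    intro y
    rw [hh, hFs]
    simp only
    rw [← Finset.sum_fiberwise univ A (fun x => ψ (y * A x) * f x)]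
    refine sum_congr rfl fun s _ => ?_
    rw [mul_sum]
    refine sum_congr rfl fun x hx => ?_
    rw [(mem_filter.mp hx).2]
  have hsum : ∑ x, ∑ y, ψ (β * (σ x * y) + γ * (x * σ y)) * (f x * g y) = ∑ y, g y * h y := by
    rw [sum_comm]
    refine sum_congr rfl fun y _ => ?_
    rw [hh1, mul_sum]
    refine sum_congr rfl fun x _ => ?_
    rw [hph]
    ring
  have hFs2 : ∀ s, ‖Fs s‖ ^ 2 ≤ 3 * ∑ x with A x = s, ‖f x‖ ^ 2 := by
    intro s
    have h1 : ‖Fs s‖ ≤ ∑ x with A x = s, ‖f x‖ := norm_sum_le _ _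
    have h2 : (∑ x with A x = s, ‖f x‖) ^ 2 ≤
        (({x : F | A x = s} : Finset F).card : ℝ) * ∑ x with A x = s, ‖f x‖ ^ 2 :=
      sq_sum_le_card_mul_sum_sq
    have h3 : (({x : F | A x = s} : Finset F).card : ℝ) ≤ 3 := by exact_mod_cast hfib s
    calc ‖Fs s‖ ^ 2 ≤ (∑ x with A x = s, ‖f x‖) ^ 2 :=
          pow_le_pow_left₀ (norm_nonneg _) h1 2
      _ ≤ _ := h2
      _ ≤ 3 * ∑ x with A x = s, ‖f x‖ ^ 2 :=
          mul_le_mul_of_nonneg_right h3 (sum_nonneg fun _ _ => sq_nonneg _)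
  have hH : ∑ y, ‖h y‖ ^ 2 ≤ Fintype.card F * (3 * ∑ x, ‖f x‖ ^ 2) := by
    rw [hh]
    simp only
    rw [Pool.Agent.G9.H4.pars ψ hψ Fs]
    refine mul_le_mul_of_nonneg_left ?_ hq0
    calc ∑ s, ‖Fs s‖ ^ 2 ≤ ∑ s, 3 * ∑ x with A x = s, ‖f x‖ ^ 2 := sum_le_sum fun s _ => hFs2 s
      _ = 3 * ∑ x, ‖f x‖ ^ 2 := by
          rw [← mul_sum, Finset.sum_fiberwise univ A (fun x => ‖f x‖ ^ 2)]
  have hcs : ‖∑ y, g y * h y‖ ^ 2 ≤ (∑ y, ‖g y‖ ^ 2) * ∑ y, ‖h y‖ ^ 2 := by
    have h1 : ‖∑ y, g y * h y‖ ≤ ∑ y, ‖g y‖ * ‖h y‖ := by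
      refine (norm_sum_le _ _).trans (le_of_eq ?_)
      refine sum_congr rfl fun y _ => norm_mul _ _
    calc ‖∑ y, g y * h y‖ ^ 2 ≤ (∑ y, ‖g y‖ * ‖h y‖) ^ 2 :=
          pow_le_pow_left₀ (norm_nonneg _) h1 2
      _ ≤ _ := Finset.sum_mul_sq_le_sq_mul_sq univ (fun y => ‖g y‖) (fun y => ‖h y‖)
  rw [hsum]
  have hf0 : 0 ≤ ∑ x, ‖f x‖ ^ 2 := sum_nonneg fun _ _ => sq_nonneg _
  have hg0 : 0 ≤ ∑ x, ‖g x‖ ^ 2 := sum_nonneg fun _ _ => sq_nonneg _
  calc ‖∑ y, g y * h y‖ ^ 2 ≤ (∑ y, ‖g y‖ ^ 2) * ∑ y, ‖h y‖ ^ 2 := hcs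
    _ ≤ (∑ y, ‖g y‖ ^ 2) * (Fintype.card F * (3 * ∑ x, ‖f x‖ ^ 2)) :=
        mul_le_mul_of_nonneg_left hH hg0
    _ ≤ 16 * Fintype.card F * ((∑ x, ‖f x‖ ^ 2) * (∑ y, ‖g y‖ ^ 2)) := by
        have : 0 ≤ (Fintype.card F : ℝ) * ((∑ x, ‖f x‖ ^ 2) * (∑ y, ‖g y‖ ^ 2)) :=
          mul_nonneg hq0 (mul_nonneg hf0 hg0)
        nlinarith

end Pool.Agent.G9.H16
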